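import Pool.Agent.T3H29.RH.Gehring

/-!
# MP_edcda5_an, Q1 (positive answer): explicit Gehring exponent in terms of `[w]_{RH_p}`

For every dimension `d` and every `1 < p < ∞` the constant
`c_{d,p} = p ((p-1)/p)^p / 2^{d+1}` works: if `w ∈ RH_p` and `0 < ε ≤ c_{d,p} [w]_{RH_p}^{-p}`, then
`⟨w^{p+ε}⟩_Q ≤ 2 [w]_{RH_p}^{p+ε} ⟨w⟩_Q^{p+ε}` for every cube `Q`.

Proof: on a fixed cube, the dyadic maximal function of `v = w^p` is at most `[w]^p (M w)^p`, so by Doob's
inequality its integral over every dyadic subcube `R` is at most `A v(R)`, `A = [w]^p (p/(p-1))^p`. A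
self-improvement argument for running maxima along the dyadic tree then gives
`⟨v^{1+δ}⟩_Q ≤ 2 ⟨v⟩_Q^{1+δ}` for `2^{d+1} A δ ≤ 1`.
-/

set_option autoImplicit false
open MeasureTheory
open scoped ENNReal

namespace Pool.Agent.Results.MP_edcda5_an.ExplicitGehring

open Pool.Agent.T3H29.RH

/-- **Positive answer to Q1**, with `c = p ((p-1)/p)^p / 2^{d+1}`. -/
theorem result (d : ℕ) (p : ℝ) (hp : 1 < p) :
    ∃ c : ℝ, 0 < c ∧ c = p * ((p - 1) / p) ^ p / 2 ^ (d + 1) ∧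
      ∀ w : (Fin d → ℝ) → ℝ, IsWeight w → rhConst p w < ⊤ →
        ∀ (a : Fin d → ℝ) (ℓ : ℝ), 0 < ℓ →
          ∀ ε : ℝ, 0 < ε → ε ≤ c * (rhConst p w).toReal ^ (-p) →
            cavg (fun x => ENNReal.ofReal (w x) ^ (p + ε)) a ℓ ≤
              2 * rhConst p w ^ (p + ε) * cavg (fun x => ENNReal.ofReal (w x)) a ℓ ^ (p + ε) := by
  have hp0 : 0 < p := by linarith
  have hp1 : 0 < p - 1 := by linarith
  refine ⟨p * ((p - 1) / p) ^ p / 2 ^ (d + 1), by positivity, rfl, ?_⟩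
  intro w hw hR a ℓ hℓ ε hε hle
  let b : Cb d := ⟨(a, ℓ), hℓ⟩
  set K := (rhConst p w).toReal with hK
  have hK0 : 0 ≤ K := ENNReal.toReal_nonneg
  -- `K > 0`
  have hKpos : 0 < K := by
    rcases hK0.eq_or_lt with h | h
    · exfalso
      have h1 := rh_rav hp hw hR b
      have h2 := jensen_cube hp hw hR b
      rw [← hK, ← h, zero_mul, Real.zero_rpow hp0.ne'] at h1
      have h3 := Real.rpow_pos_of_pos (rav_w_pos hw b) p
      linarith
    · exact h
  set δ := ε / p with hδ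
  have hδ0 : 0 < δ := by positivity
  have hcond : 2 * (2 ^ d * (K ^ p * (p / (p - 1)) ^ p) * δ) ≤ 1 := by
    have h1 : ((p - 1) / p) ^ p * (p / (p - 1)) ^ p = 1 := by
      rw [← Real.mul_rpow (by positivity) (by positivity)]
      have : (p - 1) / p * (p / (p - 1)) = 1 := by field_simp
      rw [this, Real.one_rpow]
    have h2 : K ^ (-p) * K ^ p = 1 := by
      rw [← Real.rpow_add hKpos]; simp
    have h3 : 2 * (2 ^ d * (K ^ p * (p / (p - 1)) ^ p) * δ) =
        2 ^ (d + 1) / p * (K ^ p * (p / (p - 1)) ^ p) * ε := by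
      rw [hδ, pow_succ]; field_simp
    rw [h3]
    calc 2 ^ (d + 1) / p * (K ^ p * (p / (p - 1)) ^ p) * ε
        ≤ 2 ^ (d + 1) / p * (K ^ p * (p / (p - 1)) ^ p) *
            (p * ((p - 1) / p) ^ p / 2 ^ (d + 1) * K ^ (-p)) := by gcongr
      _ = (((p - 1) / p) ^ p * (p / (p - 1)) ^ p) * (K ^ (-p) * K ^ p) *
            ((2 ^ (d + 1) / p) * (p / 2 ^ (d + 1))) := by ring
      _ = 1 := by rw [h1, h2]; field_simp
  have hmain := gehring_aux hp hw hR b hδ0 hcond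
  have hexp : p * (1 + δ) = p + ε := by rw [hδ]; field_simp
  -- rewrite the averages
  have e1 : cavg (fun x => ENNReal.ofReal (w x) ^ (p + ε)) a ℓ =
      (∫⁻ x in H b, (ENNReal.ofReal (w x) ^ p) ^ (1 + δ)) / volume (H b) := by
    have h := cavg_eq (fun x => ENNReal.ofReal (w x) ^ (p + ε)) b
    simp_rw [← ENNReal.rpow_mul, hexp]
    exact h
  have e2 : cavg (fun x => ENNReal.ofReal (w x)) a ℓ =
      (∫⁻ x in H b, ENNReal.ofReal (w x)) / volume (H b) := cavg_eq _ b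
  rw [e1, e2]
  have h1 : (∫⁻ x in H b, (ENNReal.ofReal (w x) ^ p) ^ (1 + δ)) / volume (H b) ≤
      2 * ENNReal.ofReal (rav (fun x => ENNReal.ofReal (w x) ^ p) b) ^ (1 + δ) :=
    ENNReal.div_le_of_le_mul hmain
  refine h1.trans ?_
  rw [ofReal_rav (lint_wp_ne_top hp hw hR b)]
  have h2 := rh_cube hp hw b
  have h3 := ENNReal.rpow_le_rpow h2 (by linarith : 0 ≤ 1 + δ)
  rw [← ENNReal.rpow_mul, hexp, ENNReal.mul_rpow_of_nonneg _ _ (by linarith)] at h3
  rw [mul_assoc]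
  gcongr

end Pool.Agent.Results.MP_edcda5_an.ExplicitGehring
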